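import Pool.Agent.Helper34.LL.Defs

/-!
# Project LL (MP_41f897_lc), module LA: the Poisson equation
-/

set_option autoImplicit false

namespace Pool.Agent.Helper98.LL

open Pool.Agent.Helper34.LL Pool.Agent.Helper34.SD Pool.Agent.Helper34.PT

variable {X : Type} [Fintype X]

/-- the operator `g ↦ g - (g ∘ p0 + g ∘ p1) / 2` -/
private noncomputable def op (p0 p1 : Equiv.Perm X) : (X → ℝ) →ₗ[ℝ] (X → ℝ) where
  toFun g := fun x => g x - (g (p0 x) + g (p1 x)) / 2
  map_add' g h := by
    funext x
    simp only [Pi.add_apply]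
    ring
  map_smul' c g := by
    funext x
    simp only [Pi.smul_apply, smul_eq_mul, RingHom.id_apply]
    ring

/-- the sum -/
private noncomputable def sm : (X → ℝ) →ₗ[ℝ] ℝ where
  toFun g := ∑ x, g x
  map_add' g h := by simp [Finset.sum_add_distrib]
  map_smul' c g := by simp [Finset.mul_sum]

private theorem ker_const (p0 p1 : Equiv.Perm X) [Nonempty X]
    (ht : ∀ x y : X, ∃ k : ℕ, (p0 ^ k) x = y) (g : X → ℝ) (hg : op p0 p1 g = 0) :
    g ∈ Submodule.span ℝ {(fun _ => (1 : ℝ) : X → ℝ)} := by
  obtain ⟨x0, hx0⟩ := Finite.exists_max g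
  have hstep : ∀ x, g x = g x0 → g (p0 x) = g x0 := by
    intro x hx
    have h1 := congrFun hg x
    change g x - (g (p0 x) + g (p1 x)) / 2 = 0 at h1
    have h2 := hx0 (p0 x)
    have h3 := hx0 (p1 x)
    linarith
  have hall : ∀ k : ℕ, g ((p0 ^ k) x0) = g x0 := by
    intro k
    induction k with
    | zero => rfl
    | succ k ih =>
      rw [pow_succ', Equiv.Perm.mul_apply]
      exact hstep _ ih
  rw [Submodule.mem_span_singleton]
  refine ⟨g x0, ?_⟩
  funext y
  obtain ⟨k, hk⟩ := ht x0 y
  rw [← hk, hall k]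
  simp

theorem hLA : Stmt_LA := by
  intro X _ p0 p1 f ht hf
  rcases isEmpty_or_nonempty X with hX | hX
  · exact ⟨f, fun x => hX.elim x⟩
  · have h1 : Module.finrank ℝ (LinearMap.ker (op p0 p1)) ≤ 1 := by
      refine le_trans (Submodule.finrank_mono (t := Submodule.span ℝ {(fun _ => (1 : ℝ) : X → ℝ)})
        fun g hg => ker_const p0 p1 ht g hg) ?_
      exact (finrank_span_le_card _).trans (by simp)
    have h2 := LinearMap.finrank_range_add_finrank_ker (op p0 p1)
    have hs : Function.Surjective (sm (X := X)) := by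
      intro r
      refine ⟨fun _ => r / Fintype.card X, ?_⟩
      have hc : (Fintype.card X : ℝ) ≠ 0 := by
        have := Fintype.card_pos (α := X)
        positivity
      change ∑ _x : X, r / (Fintype.card X : ℝ) = r
      rw [Finset.sum_const, Finset.card_univ, nsmul_eq_mul]
      field_simp
    have h3 := LinearMap.finrank_range_add_finrank_ker (sm (X := X))
    rw [LinearMap.range_eq_top.2 hs, finrank_top, Module.finrank_self] at h3
    have hle : LinearMap.range (op p0 p1) ≤ LinearMap.ker (sm (X := X)) := by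
      rintro _ ⟨g, rfl⟩
      rw [LinearMap.mem_ker]
      change ∑ x, (g x - (g (p0 x) + g (p1 x)) / 2) = 0
      rw [Finset.sum_sub_distrib, ← Finset.sum_div, Finset.sum_add_distrib,
        Equiv.sum_comp p0 g, Equiv.sum_comp p1 g]
      ring
    have heq : LinearMap.range (op p0 p1) = LinearMap.ker (sm (X := X)) :=
      Submodule.eq_of_le_of_finrank_le hle (by omega)
    have hmem : f ∈ LinearMap.ker (sm (X := X)) := by
      rw [LinearMap.mem_ker]
      exact hf
    rw [← heq] at hmem
    obtain ⟨g, hg⟩ := hmem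
    exact ⟨g, fun x => by rw [← hg]; rfl⟩

end Pool.Agent.Helper98.LL
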